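import Pool.Agent.Run7.h860.Hd.Opt

/-!
Piece ML (Mahler measure) of the sharpness clause of HalfDiscriminant.
-/

set_option autoImplicit false

open Polynomial Finset

namespace Pool.Agent.Run7.h459.Hd

theorem ml_log_prod {α : Type*} (s : Multiset α) (g : α → ℝ) (hg : ∀ z ∈ s, g z ≠ 0) :
    Real.log ((s.map g).prod) = (s.map fun z => Real.log (g z)).sum ∧ (s.map g).prod ≠ 0 := by
  induction s using Multiset.induction_on with
  | empty => simp
  | cons a s ih =>
    obtain ⟨h1, h2⟩ := ih (fun z hz => hg z (Multiset.mem_cons_of_mem hz))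
    have ha := hg a (Multiset.mem_cons_self a s)
    simp only [Multiset.map_cons, Multiset.prod_cons, Multiset.sum_cons]
    exact ⟨by rw [Real.log_mul ha h2, h1], mul_ne_zero ha h2⟩

theorem ml_gen {F : Type*} [Field F] [IsAlgClosed F] (ψ : F →+* ℂ) (d : ℕ) (f : Polynomial F)
    (a : F) (hf : f ≠ 0) (hd : f.natDegree ≤ d) (hfa : f.eval a ≠ 0) (i : ℕ)
    (hi : f.coeff i ≠ 0) :
    Real.log ‖ψ (f.coeff i)‖ ≤
      (f.roots.map fun z => Real.log (max 1 ‖ψ z‖ / ‖ψ (a - z)‖)).sum +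
        Real.log ‖ψ (f.eval a)‖ + d * Real.log 2 := by
  have hinj : Function.Injective ψ := ψ.injective
  have hsplit : f.Splits := IsAlgClosed.splits f
  have hlc0 : f.leadingCoeff ≠ 0 := leadingCoeff_ne_zero.mpr hf
  have hlcn : ‖ψ f.leadingCoeff‖ ≠ 0 := by
    rw [norm_ne_zero_iff]
    exact (map_ne_zero ψ).mpr hlc0
  -- no root equals `a`
  have hna : ∀ z ∈ f.roots, ‖ψ (a - z)‖ ≠ 0 := by
    intro z hz
    rw [norm_ne_zero_iff]
    refine (map_ne_zero ψ).mpr (sub_ne_zero.mpr ?_)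
    rintro rfl
    exact hfa ((mem_roots hf).mp hz)
  have hmx : ∀ z ∈ f.roots, max 1 ‖ψ z‖ ≠ 0 := fun z _ =>
    (lt_of_lt_of_le one_pos (le_max_left _ _)).ne'
  -- evaluation
  have heval : ‖ψ (f.eval a)‖ =
      ‖ψ f.leadingCoeff‖ * (f.roots.map fun z => ‖ψ (a - z)‖).prod := by
    have hnp : ∀ s : Multiset ℂ, ‖s.prod‖ = (s.map norm).prod := fun s =>
      map_multiset_prod (normHom (α := ℂ)) s
    rw [hsplit.eval_eq_prod_roots a, map_mul, norm_mul, map_multiset_prod, Multiset.map_map,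
      hnp, Multiset.map_map]
    rfl
  -- Mahler measure
  have hroots : (f.map ψ).roots = f.roots.map ψ := hsplit.roots_map ψ
  have hM : (f.map ψ).mahlerMeasure =
      ‖ψ f.leadingCoeff‖ * (f.roots.map fun z => max 1 ‖ψ z‖).prod := by
    rw [mahlerMeasure_eq_leadingCoeff_mul_prod_roots, hroots, Multiset.map_map,
      leadingCoeff_map]
    rfl
  have hcoef : ‖ψ (f.coeff i)‖ ≤ 2 ^ d * (f.map ψ).mahlerMeasure := by
    have h1 := norm_coeff_le_choose_mul_mahlerMeasure i (f.map ψ)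
    rw [coeff_map] at h1
    refine h1.trans (mul_le_mul_of_nonneg_right ?_ (mahlerMeasure_nonneg _))
    have h2 : (f.map ψ).natDegree.choose i ≤ 2 ^ (f.map ψ).natDegree := Nat.choose_le_two_pow _ _
    have h3 : 2 ^ (f.map ψ).natDegree ≤ 2 ^ d :=
      Nat.pow_le_pow_right (by norm_num) (by rw [natDegree_map]; exact hd)
    exact_mod_cast h2.trans h3
  have hci : 0 < ‖ψ (f.coeff i)‖ := norm_pos_iff.mpr ((map_ne_zero ψ).mpr hi)
  obtain ⟨hp1, hp1'⟩ := ml_log_prod f.roots (fun z => max 1 ‖ψ z‖) hmx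
  obtain ⟨hp2, hp2'⟩ := ml_log_prod f.roots (fun z => ‖ψ (a - z)‖) hna
  have hlog : Real.log ‖ψ (f.coeff i)‖ ≤ Real.log (2 ^ d * (f.map ψ).mahlerMeasure) :=
    Real.log_le_log hci hcoef
  have hsum : (f.roots.map fun z => Real.log (max 1 ‖ψ z‖ / ‖ψ (a - z)‖)).sum =
      (f.roots.map fun z => Real.log (max 1 ‖ψ z‖)).sum -
        (f.roots.map fun z => Real.log ‖ψ (a - z)‖).sum := by
    rw [← Multiset.sum_map_sub]
    refine congrArg Multiset.sum (Multiset.map_congr rfl fun z hz => ?_)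
    exact Real.log_div (hmx z hz) (hna z hz)
  rw [hM, Real.log_mul (by positivity) (mul_ne_zero hlcn hp1'), Real.log_pow,
    Real.log_mul hlcn hp1', hp1] at hlog
  rw [hsum, heval, Real.log_mul hlcn hp2', hp2]
  linarith

theorem t_ML : Pool.Agent.Run7.h860.Hd.S_ML := by
  intro ψ d f a hf hd hfa i hi
  exact ml_gen ψ d f a hf hd hfa i hi

end Pool.Agent.Run7.h459.Hd
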